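import Pool.Agent.TH125.Gal.Pub

/-!
# Families with Picard-Lefschetz monodromy and the variational Hodge conjecture: definitions

Let `𝒮` be a smooth connected complex variety with a base point and fundamental group `Γ`, and let `k` be
an algebraic closure of the function field of `𝒮`. We consider smooth projective families `X → 𝒮` (and
over the finite etale coverings of `𝒮`). The varieties in the class `𝒱` are the geometric generic fibres of
these families, `H(X)` is the cohomology of all fibres, trivialised over the universal covering of `𝒮`
(whose points are the elements of the type `B`), and `Γ` acts on `H(X)` if `X` is defined over `𝒮`. The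
cycle classes of the cohomology theory `W` are the classes of cycles on the geometric generic fibre.
-/

open CategoryTheory AlgebraicGeometry

universe u v w

namespace Pool.Agent.U228.LF

section Alg

variable {K : Type*} [Field K] {A : Type*} [Ring A] [Algebra K A] {B : Type*} [Ring B]
  [Algebra K B] {Γ : Type*} [Group Γ]

/-- The element `c` is invariant under the action `ρ`. -/
def Fixed (ρ : Γ →* (A ≃ₐ[K] A)) (c : A) : Prop := ∀ g, ρ g c = c

/-- The action `ρ` respects the subspaces `gr i` and the linear form `tr`, and the elements of the sets
`C j` are invariant. -/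
structure IsMonodromy (gr : ℕ → Submodule K A) (tr : A →ₗ[K] K) (C : ℕ → Set A)
    (ρ : Γ →* (A ≃ₐ[K] A)) : Prop where
  gr_mem : ∀ g i, ∀ a ∈ gr i, ρ g a ∈ gr i
  tr_act : ∀ g a, tr (ρ g a) = tr a
  flat : ∀ j, ∀ c ∈ C j, Fixed ρ c

/-- The linear combinations of the products `a * q z`, where `a ∈ S` and `z` are invariant. -/
def fixedProducts (ρ : Γ →* (A ≃ₐ[K] A)) (τ : Γ →* (B ≃ₐ[K] B)) (S : Submodule K A)
    (q : B →ₐ[K] A) : Submodule K A :=
  Submodule.span K {c | ∃ a ∈ S, Fixed ρ a ∧ ∃ z, Fixed τ z ∧ c = a * q z}

/-- The invariant elements of `S` are in `T`. -/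
def FixedLE (ρ : Γ →* (A ≃ₐ[K] A)) (S T : Submodule K A) : Prop := ∀ c, Fixed ρ c → c ∈ S → c ∈ T

/-- The elements of the sets `C j` are in `S`. -/
def Contains (C : ℕ → Set A) (S : Submodule K A) : Prop := ∀ j, ∀ c ∈ C j, c ∈ S

/-- The subspace `S` is stable under products. -/
def MulStable (S : Submodule K A) : Prop := ∀ x ∈ S, ∀ y ∈ S, x * y ∈ S

/-- The linear map `f` maps the subspace `S` to the subspace `T`. -/
def Maps (f : A →ₗ[K] B) (S : Submodule K A) (T : Submodule K B) : Prop := ∀ x ∈ S, f x ∈ T

/-- The homomorphism `f` maps the subspace `S` to the subspace `T`. -/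
def HomMaps (f : A →ₐ[K] B) (S : Submodule K A) (T : Submodule K B) : Prop := ∀ x ∈ S, f x ∈ T

/-- The value `1` of the linear map `f` is taken on the subspace `S`. -/
def HitsOne (f : A →ₗ[K] B) (S : Submodule K A) : Prop := ∃ h ∈ S, f h = 1

end Alg

open Pool.Agent.H914 Pool.Agent.H914.VarClass Pool.Agent.H914.VarClass.Obj
  Pool.Agent.H914.WeilCohomology Pool.Agent.H281R3.HT Pool.Agent.W552 Pool.Agent.TH125.Gal

variable {k : Type u} [Field k] {𝒱 : VarClass k} {ops : CycleOps 𝒱}
  {W : WeilCohomology.{u, v} ops} {Γ : Type w} [Group Γ]

/-- The class `c` is a global section of the local system: it is invariant under the monodromy. -/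
def Flat (X : GVar W Γ) (c : W.H X.X) : Prop := Fixed X.act c

/-- A family over `𝒮` with the following properties. The monodromy respects the degrees, the
intersection form and the algebraic classes of the geometric generic fibre. For the powers of the
geometric generic fibre homological and numerical equivalence agree. The transcendental part of the
cohomology (the orthogonal complement of the algebraic classes) is in the middle degree, and it is
irreducible under the subgroups of finite index of the fundamental group. -/
structure IsFibration (X : GVar W Γ) : Prop where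
  monodromy : IsMonodromy (W.gr X.X) (W.tr X.X) (algClasses W X.X) X.act
  homEqNum : ∀ n, HomEqNum W (power ops X.X n)
  middle : transcendental W X.X ≤ W.gr X.X X.X.dim
  irreducible : IrredAct X.act (transcendental W X.X)

/-- The families `X i` are fibrations as above, `Z` is any family. For each `i` there is an element of
the fundamental group which acts on the transcendental part of the cohomology of `X i` by a
Picard-Lefschetz formula and trivially on the cohomology of `Z` and of the other `X j` (for example
a loop around a value at which `X i` gets an ordinary double point, and `Z` and the other `X j` have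
good reduction). If some `X i` has even dimension, then the coefficient field of the cohomology
contains only finitely many `ζ + ζ⁻¹`, `ζ` a root of unity (for example it is `ℚ`). -/
structure LefschetzFamily {ι : Type} (X : ι → GVar W Γ) (Z : GVar W Γ) : Prop where
  fibration : ∀ i, IsFibration (X i)
  node : ∀ i, ∃ g : Γ, PLAct (W.tr (X i).X) (transcendental W (X i).X) (X i).act g ∧
    TrivAct Z.act g ∧ ∀ j, j ≠ i → TrivAct (X j).act g
  few : (∃ i, Even (X i).X.dim) → FewRoots W.K

/-- The fibre products `Y = X_1^(n_1) ×_𝒮 X_2^(n_2) ×_𝒮 ⋯ ×_𝒮 Z` (with the projection `q` to `Z`), where the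
`X_i` are pairwise different members of the family `X`, with arbitrary exponents `n_i ≥ 1`. -/
inductive Tower {ι : Type} (X : ι → GVar W Γ) (Z : GVar W Γ) :
    Set ι → (Y : GVar W Γ) → (Y.X ⟶ Z.X) → Prop
  | base : Tower X Z ∅ Z (𝟙 Z.X)
  | step {S : Set ι} {Y : GVar W Γ} {q : Y.X ⟶ Z.X} (i : ι) (n : ℕ)
      (υ : Γ →* (W.H ((power ops (X i).X n).prod Y.X) ≃ₐ[W.K]
        W.H ((power ops (X i).X n).prod Y.X))) :
      Tower X Z S Y q → i ∉ S →
      (∀ p, Intertwines (W.map (fst (power ops (X i).X n) Y.X ≫ powerPrj ops (X i).X n p))
        (X i).act υ) →
      Intertwines (W.map (snd (power ops (X i).X n) Y.X)) Y.act υ →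
      Tower X Z (insert i S) ⟨(power ops (X i).X n).prod Y.X, υ⟩
        (snd (power ops (X i).X n) Y.X ≫ q)

/-- The combinations of the products `a · q^* z`, where `a` is a global section which is a combination
of algebraic classes of the geometric generic fibre of `Y`, and `z` is a global section for `Z`. -/
noncomputable def productSections (Y Z : GVar W Γ) (q : Y.X ⟶ Z.X) : Submodule W.K (W.H Y.X) :=
  fixedProducts Y.act Z.act (algSpan W Y.X) (W.map q)

/-- `alg b X` is the span of the classes of the algebraic cycles on the fibre of `X` over the point
`b`. The specialisations of cycles on the geometric generic fibre are algebraic, and the algebraic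
classes are stable under products, pull-backs and push-forwards. -/
structure Fibres (W : WeilCohomology.{u, v} ops) (B : Type) where
  /-- the span of the classes of the algebraic cycles on the fibre over `b` -/
  alg : B → ∀ X : 𝒱.Obj, Submodule W.K (W.H X)
  cyc : ∀ b X, Contains (algClasses W X) (alg b X)
  mul : ∀ b X, MulStable (alg b X)
  map : ∀ b {X Y : 𝒱.Obj} (f : X ⟶ Y), HomMaps (W.map f) (alg b Y) (alg b X)
  push : ∀ b {X Y : 𝒱.Obj} (f : X ⟶ Y), Maps (W.push f) (alg b X) (alg b Y)

/-- **The variational Hodge conjecture** for the family `X`: a global section which is a combination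
of classes of algebraic cycles at one point is such a combination at all points. -/
def VHC {B : Type} (𝒜 : Fibres W B) (X : GVar W Γ) : Prop :=
  ∀ b b', FixedLE X.act (𝒜.alg b X.X) (𝒜.alg b' X.X)

/-- `V` is dominated by `Y`: there is a morphism `f : Y → V` (with equivariant pull-back) and a
combination `h` of algebraic classes of `Y` with `f_* h = 1`. -/
def Dominates (Y V : GVar W Γ) : Prop :=
  ∃ f : Y.X ⟶ V.X, Intertwines (W.map f) V.act Y.act ∧ HitsOne (W.push f) (algSpan W Y.X)

end Pool.Agent.U228.LF
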