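import Pool.Agent.U228.LF.Refl
import Pool.Agent.U228.LF.Defs

/-!
# The variational Hodge conjecture for families with Picard-Lefschetz monodromy: proofs
-/

open CategoryTheory AlgebraicGeometry Finset

set_option linter.unusedSectionVars false

universe u v w

namespace Pool.Agent.U228.LF

open Pool.Agent.H914 Pool.Agent.H914.VarClass Pool.Agent.H914.VarClass.Obj
  Pool.Agent.H914.WeilCohomology Pool.Agent.H281R3.HT Pool.Agent.W552 Pool.Agent.TH125.Gal

variable {k : Type u} [Field k] {𝒱 : VarClass k} {ops : CycleOps 𝒱}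
  {W : WeilCohomology.{u, v} ops} {Γ : Type w} [Group Γ]

/-- push-forward to the second factor after multiplication -/
noncomputable def cn' {A B : 𝒱.Obj} (u : W.H A) (c : W.H (A.prod B)) : W.H B :=
  W.push (snd A B) (W.map (fst A B) u * c)

/-- the combinations of external products of algebraic classes of the first factor and arbitrary
classes -/
noncomputable def LSp (W : WeilCohomology.{u, v} ops) (A B : 𝒱.Obj) :
    Submodule W.K (W.H (A.prod B)) :=
  Submodule.span W.K {c | ∃ a ∈ algSpan W A, ∃ b, c = W.map (fst A B) a * W.map (snd A B) b}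

/-- Contraction with a linear form by algebraic operations. -/
theorem ctr_eq {A B : 𝒱.Obj} (s : SB W A) (φ : W.H A →ₗ[W.K] W.K) {c : W.H (A.prod B)}
    (hc : c ∈ LSp W A B) : ctr φ c = ∑ i, φ (s.uC i) • cn' (s.bC i : W.H A) c := by
  induction hc using Submodule.span_induction with
  | mem c hc =>
    obtain ⟨a, ha, z, rfl⟩ := hc
    rw [ctr_apply]
    have h1 : ∀ i, cn' (s.bC i : W.H A) (W.map (fst A B) a * W.map (snd A B) z) =
        bil W A (s.bC i) a • z := by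
      intro i
      rw [cn', ← mul_assoc, ← map_mul, W.push_snd]
      rfl
    have h2 := congrArg φ (expand_uC s ha)
    rw [map_sum] at h2
    rw [h2, Finset.sum_smul]
    refine Finset.sum_congr rfl fun i _ => ?_
    rw [h1, map_smul, smul_eq_mul, smul_smul, mul_comm]
  | zero => simp [cn']
  | add x y _ _ hx hy =>
    rw [map_add, hx, hy, ← Finset.sum_add_distrib]
    refine Finset.sum_congr rfl fun i _ => ?_
    rw [cn', cn', cn', mul_add, map_add, smul_add]
  | smul r x _ hx =>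
    rw [map_smul, hx, Finset.smul_sum]
    refine Finset.sum_congr rfl fun i _ => ?_
    rw [cn', cn', mul_smul_comm, map_smul, smul_comm]

theorem isGalois_one {X : GVar W Γ} (h : IsFibration X) : IsGalois W (1 : Γ →* W.Kˣ) X.X X.act := by
  refine ⟨h.monodromy.gr_mem, fun g a => ?_, fun g j c hc => ⟨c, hc, ?_⟩, fun j c hc =>
    ⟨⊤, inferInstance, fun g _ => ?_⟩⟩
  · rw [h.monodromy.tr_act, MonoidHom.one_apply, Units.val_one, one_pow, one_mul]
  · rw [h.monodromy.flat j c hc g, MonoidHom.one_apply, Units.val_one, one_pow, one_smul]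
  · rw [h.monodromy.flat j c hc g, MonoidHom.one_apply, Units.val_one, one_pow, one_smul]

theorem homEqNum_zero {X : GVar W Γ} (h : IsFibration X) : HomEqNum W X.X := h.homEqNum 0

section general

variable {P : Polarized 𝒱} {n : ℕ} {Z : 𝒱.Obj} {s : SB W P.X}
  {ρ : Γ →* (W.H P.X ≃ₐ[W.K] W.H P.X)} {τ : Γ →* (W.H Z ≃ₐ[W.K] W.H Z)}
  {υ : Γ →* (W.H ((nest ops n fun _ => P).X.prod Z) ≃ₐ[W.K]
    W.H ((nest ops n fun _ => P).X.prod Z))}

/-- Expansion of the invariants. -/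
theorem exp_of_struct (hDX : HomEqNum W P.X) (hmid : transcendental W P.X ≤ W.gr P.X P.X.dim)
    (hG : IsGalois W (1 : Γ →* W.Kˣ) P.X ρ) (hP : IsPowAct W P n Z ρ τ υ)
    (hfix : ∀ g i, ρ g (s.bC i) = s.bC i) (hs : ∀ c, (∀ g, υ g c = c) → c ∈ Tgt s n Z) :
    ∃ (N : ℕ) (m : Fin N → W.H (nest ops n fun _ => P).X)
      (φ : Fin N → W.H (nest ops n fun _ => P).X →ₗ[W.K] W.K),
      (∀ l, m l ∈ algSpan W (nest ops n fun _ => P).X) ∧
      (∀ l g, υ g (W.map (fst _ Z) (m l)) = W.map (fst _ Z) (m l)) ∧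
      ∀ c, (∀ g, υ g c = c) → c ∈ LSp W (nest ops n fun _ => P).X Z ∧
        (∀ l g, τ g (ctr (φ l) c) = ctr (φ l) c) ∧
        c = ∑ l, W.map (fst _ Z) (m l) * W.map (snd _ Z) (ctr (φ l) c) := by
  have hone : ∀ (g : Γ) (j : ℕ), (((1 : Γ →* W.Kˣ) g : W.Kˣ) : W.K) ^ j = 1 := fun g j => by
    rw [MonoidHom.one_apply, Units.val_one, one_pow]
  obtain ⟨N, m, i, φ, hm, hφ, hexp⟩ := exists_expansion s n Z
  have hmg : ∀ l g, υ g (W.map (fst _ Z) (m l)) = W.map (fst _ Z) (m l) := by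
    intro l g
    obtain ⟨S, hS⟩ := hm l
    have h1 := mq_act (χ := (1 : Γ →* W.Kˣ)) hmid hG hP (g := g) (fun i => by
      rw [hone, one_smul, hfix]) hS
    rwa [hone, one_smul] at h1
  refine ⟨N, m, φ, fun l => ?_, hmg, fun c hc => ⟨?_, fun l g => ?_, hexp c (hs c hc)⟩⟩
  · obtain ⟨S, hS⟩ := hm l
    exact hS.alg hDX hmid
  · refine Submodule.span_mono ?_ (hs c hc)
    rintro c ⟨S, i, m, w, hm, rfl⟩
    exact ⟨m, hm.alg hDX hmid, w, rfl⟩
  · have huni : ∀ (x : Fin N → W.H Z) (l : Fin N),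
        ctr (φ l) (∑ l', W.map (fst _ Z) (m l') * W.map (snd _ Z) (x l')) = x l := by
      intro x l
      rw [map_sum, Finset.sum_eq_single l]
      · rw [ctr_apply, hφ, if_pos rfl, one_smul]
      · intro l' _ hl
        rw [ctr_apply, hφ, if_neg hl, zero_smul]
      · intro h
        exact absurd (Finset.mem_univ _) h
    have h2 : υ g c = ∑ l', W.map (fst _ Z) (m l') * W.map (snd _ Z)
        (τ g (ctr (φ l') c)) := by
      conv_lhs => rw [hexp c (hs c hc)]
      rw [map_sum]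
      refine Finset.sum_congr rfl fun l' _ => ?_
      rw [map_mul, hmg, (hP g).2]
    have h3 := huni (fun l' => τ g (ctr (φ l') c)) l
    rw [← h2, hc g] at h3
    exact h3.symm

end general

section step

variable {X : GVar W Γ} {n : ℕ} {Z : GVar W Γ}
  {υ : Γ →* (W.H ((power ops X.X n).prod Z.X) ≃ₐ[W.K] W.H ((power ops X.X n).prod Z.X))}

/-- the product action -/
abbrev PowAct (X : GVar W Γ) (n : ℕ) (Z : GVar W Γ)
    (υ : Γ →* (W.H ((power ops X.X n).prod Z.X) ≃ₐ[W.K] W.H ((power ops X.X n).prod Z.X))) :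
    Prop := IsPowAct W (⟨X.X, 0⟩ : Polarized 𝒱) n Z.X X.act Z.act υ

/-- **The structure of the global sections.** -/
theorem exists_struct (h : IsFibration X) (hP : PowAct X n Z υ) {g : Γ}
    (hPL : PLAct (W.tr X.X) (transcendental W X.X) X.act g) (hZ : TrivAct Z.act g)
    (hK : Even X.X.dim → FewRoots W.K) :
    ∃ s : SB W X.X, ∀ c : W.H ((power ops X.X n).prod Z.X), (∀ g, υ g c = c) →
      c ∈ Tgt (P := (⟨X.X, 0⟩ : Polarized 𝒱)) s n Z.X := by
  have hDX := homEqNum_zero h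
  have hG := isGalois_one h
  have hirr : StronglyIrreducible X.act (transcendental W X.X) := h.irreducible
  have hone : ∀ (g : Γ) (j : ℕ), (((1 : Γ →* W.Kˣ) g : W.Kˣ) : W.K) ^ j = 1 := fun g j => by
    rw [MonoidHom.one_apply, Units.val_one, one_pow]
  by_cases hev : Even X.X.dim
  · obtain ⟨δ, hδ, hδ0, x, hx, hgx⟩ := hPL
    have h2 : 2 + x * rform W X.X (transcendental W X.X) ⟨δ, hδ⟩ ⟨δ, hδ⟩ = 0 := by
      refine refl_const (B := rform W X.X (transcendental W X.X)) (fun a b => ?_)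
        (trans_nondeg hDX) (f := rhoT hG g) (fun a b => ?_) (δ := ⟨δ, hδ⟩) (c := x)
        (fun h0 => hδ0 (congrArg Subtype.val h0)) hx (fun t => Subtype.ext (hgx t t.2))
      · rw [rform_apply, rform_apply, trans_symm h.middle a.2 b.2, hev.neg_one_pow, one_mul]
      · have h3 := bil_act hG g a b
        rw [hone, one_mul] at h3
        exact h3
    have hδδ : bil W X.X δ δ ≠ 0 := by
      intro h0
      have h3 : rform W X.X (transcendental W X.X) ⟨δ, hδ⟩ ⟨δ, hδ⟩ = 0 := h0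
      rw [h3, mul_zero, add_zero] at h2
      exact two_ne_zero h2
    obtain ⟨s, i₀, hi₀, horth⟩ := exists_SB_orth hDX h.middle hev hδ hδδ
    obtain ⟨b, hb⟩ := exists_monoBasis (ops := ops) (⟨X.X, 0⟩ : Polarized 𝒱) s.e n
    refine ⟨s, fun c hc => ?_⟩
    have hcj : ∀ g : Γ, υ g c = (((1 : Γ →* W.Kˣ) g : W.Kˣ) : W.K) ^ 0 • c := fun g => by
      rw [hone, one_smul, hc]
    refine mem_Tgt' (P := (⟨X.X, 0⟩ : Polarized 𝒱)) (χ := 1) (j := 0) (Δ := ⊤) hb hDX h.middle hG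
      hP hirr (MonoidHom.one_apply g) (trivAct.1 hZ) hev (hK hev) (i₀ := i₀) hx ?_ horth
      (fun i => ?_) inferInstance (fun g _ => hcj g) (hcj g)
    · intro t ht
      rw [hi₀]
      exact hgx t ht
    · rw [hone, one_smul]
      exact h.monodromy.flat _ _ (s.alg i) g
  · obtain ⟨s⟩ := exists_SB hDX
    obtain ⟨b, hb⟩ := exists_monoBasis (ops := ops) (⟨X.X, 0⟩ : Polarized 𝒱) s.e n
    refine ⟨s, fun c hc => ?_⟩
    have hcj : ∀ g : Γ, υ g c = (((1 : Γ →* W.Kˣ) g : W.Kˣ) : W.K) ^ 0 • c := fun g => by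
      rw [hone, one_smul, hc]
    exact mem_Tgt (P := (⟨X.X, 0⟩ : Polarized 𝒱)) (χ := 1) (j := 0) (Δ := ⊤) hb hDX h.middle hG
      hP hirr (MonoidHom.one_apply g) (trivAct.1 hZ) hPL (fun h' => absurd h' hev) inferInstance
      (fun g _ => hcj g)

/-- **Expansion of the global sections.** -/
theorem exists_exp (h : IsFibration X) (hP : PowAct X n Z υ) {g : Γ}
    (hPL : PLAct (W.tr X.X) (transcendental W X.X) X.act g) (hZ : TrivAct Z.act g)
    (hK : Even X.X.dim → FewRoots W.K) :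
    ∃ (N : ℕ) (m : Fin N → W.H (power ops X.X n))
      (φ : Fin N → W.H (power ops X.X n) →ₗ[W.K] W.K),
      (∀ l, m l ∈ algSpan W (power ops X.X n)) ∧
      (∀ l g, υ g (W.map (fst _ Z.X) (m l)) = W.map (fst _ Z.X) (m l)) ∧
      ∀ c, (∀ g, υ g c = c) → c ∈ LSp W (power ops X.X n) Z.X ∧
        (∀ l, Flat Z (ctr (φ l) c)) ∧
        c = ∑ l, W.map (fst _ Z.X) (m l) * W.map (snd _ Z.X) (ctr (φ l) c) := by
  obtain ⟨s, hs⟩ := exists_struct h hP hPL hZ hK
  exact exp_of_struct (P := (⟨X.X, 0⟩ : Polarized 𝒱)) (s := s) (homEqNum_zero h) h.middle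
    (isGalois_one h) hP (fun g i => h.monodromy.flat _ _ (s.alg i) g) hs

variable {B : Type} (𝒜 : Fibres W B)

theorem alg_of_span (b : B) {A : 𝒱.Obj} {a : W.H A} (ha : a ∈ algSpan W A) : a ∈ 𝒜.alg b A := by
  have h1 : algSpan W A ≤ 𝒜.alg b A := by
    rw [algSpan, Submodule.span_le]
    intro c hc
    obtain ⟨j, hj⟩ := Set.mem_iUnion.1 hc
    exact 𝒜.cyc b A j c hj
  exact h1 ha

/-- **The variational Hodge conjecture for one step.** -/
theorem vhc_step (h : IsFibration X) (hP : PowAct X n Z υ) {g : Γ}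
    (hPL : PLAct (W.tr X.X) (transcendental W X.X) X.act g) (hZ : TrivAct Z.act g)
    (hK : Even X.X.dim → FewRoots W.K) (hV : VHC 𝒜 Z) :
    VHC 𝒜 ⟨(power ops X.X n).prod Z.X, υ⟩ := by
  obtain ⟨N, m, φ, hma, -, hexp⟩ := exists_exp h hP hPL hZ hK
  obtain ⟨s'⟩ := exists_SB (h.homEqNum n)
  intro b b' c hc hb
  obtain ⟨h1, h2, h3⟩ := hexp c hc
  have h4 : ∀ l, ctr (φ l) c ∈ 𝒜.alg b Z.X := by
    intro l
    rw [ctr_eq s' (φ l) h1]
    refine Submodule.sum_mem _ fun i _ => Submodule.smul_mem _ _ ?_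
    exact 𝒜.push b _ _ (𝒜.mul b _ _ (𝒜.map b _ _ (alg_of_span 𝒜 b (s'.bC i).2)) _ hb)
  change c ∈ 𝒜.alg b' ((power ops X.X n).prod Z.X)
  rw [h3]
  refine Submodule.sum_mem _ fun l _ => ?_
  exact 𝒜.mul b' _ _ (𝒜.map b' _ _ (alg_of_span 𝒜 b' (hma l))) _
    (𝒜.map b' _ _ (hV b b' _ (h2 l) (h4 l)))

/-- **The converse.** -/
theorem vhc_conv (h : IsFibration X) (hP : PowAct X n Z υ) (h1 : (1 : W.H X.X) ≠ 0)
    (hV : VHC 𝒜 ⟨(power ops X.X n).prod Z.X, υ⟩) : VHC 𝒜 Z := by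
  intro b b' c hc hb
  have h2 : W.map (snd (power ops X.X n) Z.X) c ∈ 𝒜.alg b' _ :=
    hV b b' _ (fun g => by
      change υ g (W.map (snd (power ops X.X n) Z.X) c) = _
      have h3 := (hP g).2 c
      rw [hc g] at h3
      exact h3) (𝒜.map b _ c hb)
  obtain ⟨a, ha, ha0⟩ := exists_pt (homEqNum_zero h) h1
  obtain ⟨x, hx, h5⟩ : ∃ x : W.H (power ops X.X n), x ∈ algSpan W (power ops X.X n) ∧
      W.tr (power ops X.X n) x = W.tr X.X a ^ (n + 1) :=
    ⟨mono (prj ops n fun _ => (⟨X.X, 0⟩ : Polarized 𝒱)) fun _ => a,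
      mono_alg _ fun _ => alg_mem ha, tr_mono (⟨X.X, 0⟩ : Polarized 𝒱) a n⟩
  have h3 : W.push (snd (power ops X.X n) Z.X) (W.map (fst (power ops X.X n) Z.X) x *
        W.map (snd (power ops X.X n) Z.X) c) ∈ 𝒜.alg b' Z.X :=
    𝒜.push b' _ _ (𝒜.mul b' _ _ (𝒜.map b' _ _ (alg_of_span 𝒜 b' hx)) _ h2)
  rw [W.push_snd, h5] at h3
  have h6 := Submodule.smul_mem _ (W.tr X.X a ^ (n + 1))⁻¹ h3
  rwa [smul_smul, inv_mul_cancel₀ (pow_ne_zero _ ha0), one_smul] at h6

end step

section tower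

variable {ι : Type} {X : ι → GVar W Γ} {Z : GVar W Γ}

theorem Tower.trivAct {S : Set ι} {Y : GVar W Γ} {q : Y.X ⟶ Z.X} (h : Tower X Z S Y q) {g : Γ}
    (hX : ∀ j ∈ S, TrivAct (X j).act g) (hZ : TrivAct Z.act g) : TrivAct Y.act g := by
  induction h with
  | base => exact hZ
  | step i n υ _ _ h1 h2 ih =>
    rw [Pool.Agent.TH125.Gal.trivAct]
    exact act_one (isPowAct h1 h2)
      (Pool.Agent.TH125.Gal.trivAct.1 (hX i (Set.mem_insert _ _)))
      (Pool.Agent.TH125.Gal.trivAct.1 (ih fun j hj => hX j (Set.mem_insert_of_mem _ hj)))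

/-- **The variational Hodge conjecture for towers.** -/
theorem vhc_tower (h : LefschetzFamily X Z) {B : Type} (𝒜 : Fibres W B) {S : Set ι}
    {Y : GVar W Γ} {q : Y.X ⟶ Z.X} (hY : Tower X Z S Y q) : VHC 𝒜 Y ↔ VHC 𝒜 Z := by
  induction hY with
  | base => exact Iff.rfl
  | @step S Y q i n υ hT hi h1 h2 ih =>
    obtain ⟨g, hPL, hZ, hj⟩ := h.node i
    have hY : TrivAct Y.act g := hT.trivAct (fun j hjS => hj j fun h' => hi (h' ▸ hjS)) hZ
    rw [← ih]
    constructor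
    · refine vhc_conv 𝒜 (h.fibration i) (isPowAct h1 h2) ?_
      obtain ⟨δ, hδ, hδ0, hδ'⟩ := hPL
      intro h3
      apply hδ0
      rw [← one_mul δ, h3, zero_mul]
    · exact vhc_step 𝒜 (h.fibration i) (isPowAct h1 h2) hPL hY fun h' => h.few ⟨i, h'⟩

/-- **The global sections.** -/
theorem sections_tower (h : LefschetzFamily X Z) {S : Set ι}
    {Y : GVar W Γ} {q : Y.X ⟶ Z.X} (hY : Tower X Z S Y q) (c : W.H Y.X) (hc : Flat Y c) :
    c ∈ productSections Y Z q := by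
  induction hY with
  | base =>
    refine Submodule.subset_span ⟨1, algSpan_one, fun g => map_one _, c, hc, ?_⟩
    rw [one_mul, W.map_id]
  | @step S Y q i n υ hT hi h1 h2 ih =>
    obtain ⟨g, hPL, hZ, hj⟩ := h.node i
    have hY : TrivAct Y.act g := hT.trivAct (fun j hjS => hj j fun h' => hi (h' ▸ hjS)) hZ
    obtain ⟨N, m, φ, hma, hmg, hexp⟩ := exists_exp (h.fibration i) (isPowAct h1 h2) hPL hY
      fun h' => h.few ⟨i, h'⟩
    obtain ⟨-, h3, h4⟩ := hexp c hc
    rw [h4]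
    refine Submodule.sum_mem _ fun l _ => ?_
    suffices key : ∀ y ∈ productSections Y Z q, W.map (fst (power ops (X i).X n) Y.X) (m l) *
        W.map (snd (power ops (X i).X n) Y.X) y ∈ productSections
          ⟨(power ops (X i).X n).prod Y.X, υ⟩ Z (snd (power ops (X i).X n) Y.X ≫ q) from
      key _ (ih _ (h3 l))
    intro y hy
    induction hy using Submodule.span_induction with
    | mem x hx =>
      obtain ⟨a, ha, haf, z, hz, hxz⟩ := hx
      refine Submodule.subset_span ⟨W.map (fst _ Y.X) (m l) * W.map (snd _ Y.X) a,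
        algSpan_mul (algSpan_map _ (hma l)) (algSpan_map _ ha), fun g => ?_, z, hz, ?_⟩
      · change υ g _ = _
        rw [map_mul, hmg, h2 g, haf g]
      · rw [hxz, map_mul, W.map_comp, mul_assoc]
    | zero => rw [map_zero, mul_zero]; exact Submodule.zero_mem _
    | add x y _ _ hx hy => rw [map_add, mul_add]; exact Submodule.add_mem _ hx hy
    | smul r x _ hx => rw [map_smul, mul_smul_comm]; exact Submodule.smul_mem _ _ hx

/-- **Dominated families.** -/
theorem vhc_dominated {B : Type} (𝒜 : Fibres W B) {Y V : GVar W Γ} (hD : Dominates Y V)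
    (h : VHC 𝒜 Y) : VHC 𝒜 V := by
  obtain ⟨f, hf, a, ha, ha1⟩ := hD
  intro b b' c hc hb
  have h1 : W.map f c ∈ 𝒜.alg b' Y.X := h b b' _ (fun g => by rw [hf g c, hc g])
    (𝒜.map b f c hb)
  have h2 := 𝒜.push b' f _ (𝒜.mul b' _ _ (alg_of_span 𝒜 b' ha) _ h1)
  rwa [W.push_mul, ha1, one_mul] at h2

end tower

end Pool.Agent.U228.LF
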