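import Pool.Agent.TH125.Nod.Fft2

/-!
# The first fundamental theorem for orthogonal groups, without a bound on the number of variables

A form in several variables with values in a vector space which is invariant under the Lie algebra of a
nondegenerate symmetric form and under one reflection is a combination of products of the values of the
symmetric form on pairs of variables. There is no condition on the number of the variables: with the
library theorem (`TH125.Nod.fft`, less variables than the dimension) the determinants are excluded by the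
number of variables, here they are excluded by the reflection.
-/

set_option linter.unusedSectionVars false

open Finset Function

namespace Pool.Agent.U228.LF

open Pool.Agent.TH125.Nod

universe u v

variable {K : Type u} [Field K] {B : Type} [Fintype B] [DecidableEq B] {ι : Type} [DecidableEq ι]
  {M : Type v} [AddCommGroup M] [Module K M]

section alt
variable {S : Type} [Fintype S] [DecidableEq S] {κ : B → ι} {Q : Matrix B B K} {c : S → ι}
  {i : ι} [CharZero K]

/-- forms which are alternating modulo `T` and whose alternating sum vanishes -/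
theorem anti_mem (T : Submodule K ((S → B) → M))
    (hT : ∀ a b, c a = i → c b = i → ∀ f ∈ T, sw (K := K) a b f ∈ T)
    {A : Finset S} (hA : ∀ a ∈ A, c a = i) 
    {w : (S → B) → M} (hsum : ∑ σ : Equiv.Perm {x // x ∈ A}, ((Equiv.Perm.sign σ : ℤ) : K) •
      rho (K := K) (Equiv.Perm.ofSubtype σ) w = 0)
    (halt : ∀ a ∈ A, ∀ b ∈ A, a ≠ b → sw (K := K) a b w + w ∈ T) : w ∈ T := by
  classical
  have key : ∀ σ : Equiv.Perm {x // x ∈ A},
      rho (K := K) (Equiv.Perm.ofSubtype σ) w - ((Equiv.Perm.sign σ : ℤ) : K) • w ∈ T := by
    intro σ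
    induction σ using Equiv.Perm.swap_induction_on with
    | one => simp [rho_one]
    | swap_mul τ x y hxy hτ =>
      rw [map_mul, rho_mul, Equiv.Perm.sign_mul, Equiv.Perm.sign_swap hxy,
        Equiv.Perm.ofSubtype_swap_eq]
      have hne : (x : S) ≠ y := fun h => hxy (Subtype.ext h)
      have h1 := hT x y (hA _ x.2) (hA _ y.2) _ hτ
      have h2 := halt x x.2 y y.2 hne
      have h3 := T.smul_mem ((Equiv.Perm.sign τ : ℤ) : K) h2
      have h4 := T.add_mem h1 h3
      convert h4 using 1
      simp only [sw, map_sub, map_smul, smul_add]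
      push_cast
      module
  have hfac : ∑ σ : Equiv.Perm {x // x ∈ A}, (((Equiv.Perm.sign σ : ℤ) : K) •
      (rho (K := K) (Equiv.Perm.ofSubtype σ) w - ((Equiv.Perm.sign σ : ℤ) : K) • w)) ∈ T :=
    T.sum_mem fun σ _ => T.smul_mem _ (key σ)
  simp only [smul_sub, Finset.sum_sub_distrib, hsum, zero_sub, smul_smul] at hfac
  have hsq : ∀ σ : Equiv.Perm {x // x ∈ A},
      ((Equiv.Perm.sign σ : ℤ) : K) * ((Equiv.Perm.sign σ : ℤ) : K) = 1 := by
    intro σ
    rcases Int.units_eq_one_or (Equiv.Perm.sign σ) with h | h <;> rw [h] <;> norm_num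
  simp only [hsq, one_smul, Finset.sum_const, ← Nat.cast_smul_eq_nsmul K] at hfac
  rw [Submodule.neg_mem_iff, Submodule.smul_mem_iff] at hfac
  · exact hfac
  · rw [Finset.card_univ, Fintype.card_perm]
    exact_mod_cast Nat.factorial_ne_zero _

/-- The induction on the number of alternating variables. -/
theorem alt_mem' (T P : Submodule K ((S → B) → M))
    (hT : ∀ a b, c a = i → c b = i → ∀ f ∈ T, sw (K := K) a b f ∈ T)
    (hP : ∀ a b, c a = i → c b = i → ∀ f ∈ P, sw (K := K) a b f ∈ P) (n : ℕ)
    (hn : (univ.filter fun b => κ b = i).card = n) (A : Finset S) (hA : A = univ.filter (c · = i))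
    (ε : ℤ) (hε : ε = -1 ∨ ε = 1)
    (htop : A.card = n → ∀ w ∈ P, Sup κ c w →
      (∀ a ∈ A, ∀ b ∈ A, a ≠ b → sw (K := K) a b w + w ∈ T) → w ∈ T) (d : ℕ) :
    ∀ A' ⊆ A, A'.Nonempty → n + 1 ≤ A'.card + d → ∀ w ∈ P, Sup κ c w →
      (∀ a ∈ A, (((n : ℤ) - ε : ℤ) : K) • w + ∑ b ∈ A.erase a, sw (K := K) a b w ∈ T) →
      (∀ a ∈ A', ∀ b ∈ A', a ≠ b → sw (K := K) a b w + w ∈ T) → w ∈ T := by
  have hAi : ∀ a ∈ A, c a = i := fun a ha => by
    rw [hA, Finset.mem_filter] at ha
    exact ha.2
  have hq : ∀ a ∈ A, ∀ b ∈ A, ∀ x y : (S → B) → M, T.mkQ x = T.mkQ y →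
      T.mkQ (sw (K := K) a b x) = T.mkQ (sw (K := K) a b y) := by
    intro a ha b hb x y hxy
    rw [Submodule.mkQ_apply, Submodule.mkQ_apply, Submodule.Quotient.eq] at hxy ⊢
    have := hT a b (hAi a ha) (hAi b hb) _ hxy
    rwa [sw, map_sub] at this
  have hq' : ∀ x y : (S → B) → M, x + y ∈ T ↔ T.mkQ x = - T.mkQ y := by
    intro x y
    rw [← map_neg, Submodule.mkQ_apply, Submodule.mkQ_apply, Submodule.Quotient.eq, sub_neg_eq_add]
  induction d with
  | zero =>
    intro A' hA' _ hcard w hwP hw _ halt
    exact pigeon T hT (fun a ha => hAi a (hA' ha)) (by omega) hw halt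
  | succ d ih =>
    intro A' hA' hne hcard w hwP hw hJ halt
    by_cases hlt : n + 1 ≤ A'.card
    · exact pigeon T hT (fun a ha => hAi a (hA' ha)) (by omega) hw halt
    have hlt' : A'.card < n + 1 := not_le.1 hlt
    -- the alternating sum over one more variable
    have hstep : ∀ j ∈ A \ A', w - ∑ a ∈ A', sw (K := K) a j w ∈ T := by
      intro j hj
      rw [Finset.mem_sdiff] at hj
      have hji := hAi j hj.1
      have hswA : ∀ a ∈ A', ∀ x, Equiv.swap a j x ∈ A ↔ x ∈ A := by
        intro a ha x
        by_cases h1 : x = a
        · rw [h1, Equiv.swap_apply_left]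
          exact ⟨fun _ => hA' ha, fun _ => hj.1⟩
        by_cases h2 : x = j
        · rw [h2, Equiv.swap_apply_right]
          exact ⟨fun _ => hj.1, fun _ => hA' ha⟩
        rw [Equiv.swap_apply_of_ne_of_ne h1 h2]
      refine ih (insert j A') ?_ ⟨j, Finset.mem_insert_self _ _⟩ ?_ _ ?_ ?_ ?_ ?_
      · intro x hx
        rw [Finset.mem_insert] at hx
        rcases hx with rfl | hx
        · exact hj.1
        · exact hA' hx
      · rw [Finset.card_insert_of_notMem hj.2]
        omega
      · exact P.sub_mem hwP (P.sum_mem fun a ha => hP a j (hAi a (hA' ha)) hji _ hwP)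
      · intro J hJ'
        rw [Pi.sub_apply, Finset.sum_apply, hw J hJ', Finset.sum_eq_zero, sub_zero]
        intro a ha
        exact Sup_rho (K := K) (c_swap (hAi a (hA' ha)) hji) hw J hJ'
      · intro a ha
        have h1 : ∀ l ∈ A', (((n : ℤ) - ε : ℤ) : K) • sw (K := K) l j w +
            ∑ b ∈ A.erase a, sw (K := K) a b (sw (K := K) l j w) ∈ T := by
          intro l hl
          have h2 := jm_rho (K := K) A (Equiv.swap l j) (hswA l hl) a w
          rw [h2, sw, ← map_smul, ← map_add]
          apply hT l j (hAi l (hA' hl)) hji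
          apply hJ
          rw [← hswA l hl, ← Equiv.Perm.mul_apply, mul_inv_cancel]
          exact ha
        have h3 := T.sub_mem (hJ a ha) (T.sum_mem h1)
        convert h3 using 1
        simp only [sw, map_sub, map_sum, Finset.sum_sub_distrib, Finset.sum_add_distrib, smul_sub,
          Finset.smul_sum]
        rw [Finset.sum_comm (s := A.erase a) (t := A')]
        abel
      · -- alternating
        have hsym : ∀ a ∈ A', sw (K := K) a j (w - ∑ l ∈ A', sw (K := K) l j w) +
            (w - ∑ l ∈ A', sw (K := K) l j w) ∈ T := by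
          intro a ha
          rw [hq']
          simp only [map_sub, map_sum]
          rw [← Finset.add_sum_erase A' _ ha, ← Finset.add_sum_erase A' (fun l =>
            T.mkQ (sw (K := K) l j w)) ha]
          have h1 : sw (K := K) a j (sw (K := K) a j w) = w := by
            show rho (K := K) _ (rho (K := K) _ w) = w
            rw [← rho_mul, Equiv.swap_mul_self, rho_one]
          have h2 : ∀ l ∈ A'.erase a, T.mkQ (sw (K := K) a j (sw (K := K) l j w)) =
              - T.mkQ (sw (K := K) l j w) := by
            intro l hl
            rw [Finset.mem_erase] at hl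
            have h3 : sw (K := K) a j (sw (K := K) l j w) =
                sw (K := K) l j (sw (K := K) a l w) := by
              show rho (K := K) _ (rho (K := K) _ w) = rho (K := K) _ (rho (K := K) _ w)
              rw [← rho_mul, ← rho_mul, Equiv.mul_swap_eq_swap_mul (Equiv.swap l j) a l,
                Equiv.swap_apply_of_ne_of_ne (x := a) (Ne.symm hl.1)
                  (fun h : a = j => hj.2 (h ▸ ha)),
                Equiv.swap_apply_left]
            have h4 : T.mkQ (sw (K := K) a l w) = T.mkQ (-w) := by
              rw [map_neg, ← hq']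
              exact halt a ha l hl.2 (Ne.symm hl.1)
            rw [h3, hq l (hA' hl.2) j hj.1 _ _ h4]
            simp only [sw, map_neg]
          simp only [sw] at h1 h2 ⊢
          rw [h1, Finset.sum_congr rfl h2, Finset.sum_neg_distrib]
          abel
        have hin : ∀ a ∈ A', ∀ b ∈ A', a ≠ b →
            sw (K := K) a b (w - ∑ l ∈ A', sw (K := K) l j w) +
            (w - ∑ l ∈ A', sw (K := K) l j w) ∈ T := by
          intro a ha b hb hab
          rw [hq']
          have h0 : T.mkQ (sw (K := K) a b w) = T.mkQ (-w) := by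
            rw [map_neg, ← hq']
            exact halt a ha b hb hab
          have h1 : ∀ l ∈ A', T.mkQ (sw (K := K) a b (sw (K := K) l j w)) =
              - T.mkQ (sw (K := K) (Equiv.swap a b l) j w) := by
            intro l hl
            have h3 : sw (K := K) a b (sw (K := K) l j w) =
                sw (K := K) (Equiv.swap a b l) j (sw (K := K) a b w) := by
              show rho (K := K) _ (rho (K := K) _ w) = rho (K := K) _ (rho (K := K) _ w)
              rw [← rho_mul, ← rho_mul, Equiv.mul_swap_eq_swap_mul,
                Equiv.swap_apply_of_ne_of_ne (x := j) (fun h => hj.2 (h ▸ ha))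
                  (fun h => hj.2 (h ▸ hb))]
            have hl' : Equiv.swap a b l ∈ A' := by
              by_cases e1 : l = a
              · rw [e1, Equiv.swap_apply_left]
                exact hb
              by_cases e2 : l = b
              · rw [e2, Equiv.swap_apply_right]
                exact ha
              rw [Equiv.swap_apply_of_ne_of_ne e1 e2]
              exact hl
            rw [h3, hq _ (hA' hl') j hj.1 _ _ h0]
            simp only [sw, map_neg]
          have h2 : ∑ l ∈ A', T.mkQ (sw (K := K) (Equiv.swap a b l) j w) =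
              ∑ l ∈ A', T.mkQ (sw (K := K) l j w) := by
            refine Finset.sum_bij (fun l _ => Equiv.swap a b l) ?_ ?_ ?_ ?_
            · intro l hl
              show Equiv.swap a b l ∈ A'
              by_cases e1 : l = a
              · rw [e1, Equiv.swap_apply_left]
                exact hb
              by_cases e2 : l = b
              · rw [e2, Equiv.swap_apply_right]
                exact ha
              rw [Equiv.swap_apply_of_ne_of_ne e1 e2]
              exact hl
            · intro l _ l' _ h
              exact (Equiv.swap a b).injective h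
            · intro l hl
              refine ⟨Equiv.swap a b l, ?_, Equiv.swap_apply_self _ _ _⟩
              by_cases e1 : l = a
              · rw [e1, Equiv.swap_apply_left]
                exact hb
              by_cases e2 : l = b
              · rw [e2, Equiv.swap_apply_right]
                exact ha
              rw [Equiv.swap_apply_of_ne_of_ne e1 e2]
              exact hl
            · intro l _
              rfl
          simp only [map_sub, map_sum]
          simp only [sw] at h0 h1 h2 ⊢
          rw [h0, Finset.sum_congr rfl h1, Finset.sum_neg_distrib, h2, map_neg]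
          abel
        intro a ha b hb hab
        rw [Finset.mem_insert] at ha hb
        rcases ha with rfl | ha
        · rcases hb with rfl | hb
          · exact absurd rfl hab
          · have := hsym b hb
            rwa [sw, Equiv.swap_comm] at this
        · rcases hb with rfl | hb
          · exact hsym a ha
          · exact hin a ha b hb hab
    -- the top case
    by_cases htp : A' = A ∧ A'.card = n
    · obtain ⟨h1, h2⟩ := htp
      subst h1
      exact htop h2 w hwP hw halt
    -- the final count
    have hsumT := T.sum_mem (fun a (ha : a ∈ A') => hJ a (hA' ha))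
    rw [← Submodule.ker_mkQ T, LinearMap.mem_ker, map_sum] at hsumT
    have h1 : ∀ a ∈ A', T.mkQ ((((n : ℤ) - ε : ℤ) : K) • w + ∑ b ∈ A.erase a, sw (K := K) a b w) =
        (((n : ℤ) - ε : ℤ) : K) • T.mkQ w - (((A'.card : ℤ) - 1 : ℤ) : K) • T.mkQ w +
          ∑ b ∈ A \ A', T.mkQ (sw (K := K) a b w) := by
      intro a ha
      have hsplit : A.erase a = A'.erase a ∪ (A \ A') := by
        ext x
        simp only [Finset.mem_erase, Finset.mem_union, Finset.mem_sdiff]
        constructor
        · rintro ⟨h1, h2⟩
          by_cases hx : x ∈ A'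
          · exact Or.inl ⟨h1, hx⟩
          · exact Or.inr ⟨h2, hx⟩
        · rintro (⟨h1, h2⟩ | ⟨h1, h2⟩)
          · exact ⟨h1, hA' h2⟩
          · exact ⟨fun h => h2 (h ▸ ha), h1⟩
      have hdis : Disjoint (A'.erase a) (A \ A') := by
        rw [Finset.disjoint_left]
        intro x hx hx'
        rw [Finset.mem_erase] at hx
        rw [Finset.mem_sdiff] at hx'
        exact hx'.2 hx.2
      rw [map_add, map_smul, map_sum, hsplit, Finset.sum_union hdis]
      have h2 : ∀ b ∈ A'.erase a, T.mkQ (sw (K := K) a b w) = - T.mkQ w := by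
        intro b hb
        rw [Finset.mem_erase] at hb
        rw [← hq']
        exact halt a ha b hb.2 (Ne.symm hb.1)
      rw [Finset.sum_congr rfl h2, Finset.sum_const, Finset.card_erase_of_mem ha]
      have hpos : 1 ≤ A'.card := Finset.card_pos.2 hne
      have h3 : (((A'.card : ℤ) - 1 : ℤ) : K) = ((A'.card - 1 : ℕ) : K) := by
        rw [Nat.cast_sub hpos]
        push_cast
        ring
      rw [h3, ← Nat.cast_smul_eq_nsmul K]
      module
    rw [Finset.sum_congr rfl h1, Finset.sum_add_distrib, Finset.sum_const,
      Finset.sum_comm] at hsumT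
    have h2 : ∀ j ∈ A \ A', ∑ a ∈ A', T.mkQ (sw (K := K) a j w) = T.mkQ w := by
      intro j hj
      have := hstep j hj
      rw [← Submodule.ker_mkQ T, LinearMap.mem_ker, map_sub, map_sum, sub_eq_zero] at this
      exact this.symm
    rw [Finset.sum_congr rfl h2, Finset.sum_const, ← Nat.cast_smul_eq_nsmul K,
      ← Nat.cast_smul_eq_nsmul K] at hsumT
    have hcc : (A \ A').card + A'.card = A.card := Finset.card_sdiff_add_card_eq_card hA'
    have hmA : A'.card ≤ A.card := Finset.card_le_card hA'
    have hpos : 1 ≤ A'.card := Finset.card_pos.2 hne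
    have h3 : ((((A'.card : ℤ) * ((n : ℤ) - ε - (A'.card - 1)) + (A \ A').card : ℤ)) : K) •
        T.mkQ w = 0 := by
      rw [← hsumT]
      push_cast
      module
    have h4 : (((A'.card : ℤ) * ((n : ℤ) - ε - (A'.card - 1)) + (A \ A').card : ℤ)) ≠ 0 := by
      have h6 : 0 < (A'.card : ℤ) := by omega
      have h7 : A'.card = n → 0 < ((A \ A').card : ℤ) := by
        intro h
        have h8 : A' ≠ A := fun h9 => htp ⟨h9, h⟩
        have h9 : (A \ A').Nonempty := by
          rw [Finset.sdiff_nonempty]
          exact fun h10 => h8 (Finset.Subset.antisymm hA' h10)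
        exact_mod_cast Finset.card_pos.2 h9
      have h10 : 0 ≤ ((A \ A').card : ℤ) := by positivity
      rcases hε with h | h
      · rw [h]
        have h5 : 0 < (n : ℤ) - (-1) - (A'.card - 1) := by omega
        have h11 : 0 < (A'.card : ℤ) * ((n : ℤ) - (-1) - (A'.card - 1)) := mul_pos h6 h5
        omega
      · rw [h]
        rcases Nat.lt_or_ge A'.card n with h12 | h12
        · have h5 : 0 < (n : ℤ) - 1 - (A'.card - 1) := by omega
          have h11 : 0 < (A'.card : ℤ) * ((n : ℤ) - 1 - (A'.card - 1)) := mul_pos h6 h5
          omega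
        · have h13 : A'.card = n := by omega
          have h5 : (n : ℤ) - 1 - (A'.card - 1) = 0 := by omega
          rw [h5, mul_zero, zero_add]
          exact (h7 h13).ne'
    rw [smul_eq_zero, Int.cast_eq_zero] at h3
    rcases h3 with h3 | h3
    · exact absurd h3 h4
    · rwa [← LinearMap.mem_ker, Submodule.ker_mkQ] at h3

end alt

section one

variable {S : Type} [Fintype S] [DecidableEq S]

/-- The forms which vanish if an odd number of variables is the basis vector `b₀`: the forms
invariant under the reflection which maps `b₀` to `-b₀` and fixes the other vectors of the basis. -/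
def par (K : Type u) [Field K] (M : Type v) [AddCommGroup M] [Module K M] (S : Type) [Fintype S]
    (b₀ : B) : Submodule K ((S → B) → M) where
  carrier := {f | ∀ J : S → B, Odd (univ.filter fun j => J j = b₀).card → f J = 0}
  zero_mem' _ _ := rfl
  add_mem' := by
    intro f g hf hg J hJ
    rw [Pi.add_apply, hf J hJ, hg J hJ, add_zero]
  smul_mem' := by
    intro r f hf J hJ
    rw [Pi.smul_apply, hf J hJ, smul_zero]

theorem card_perm (σ : Equiv.Perm S) (J : S → B) (b₀ : B) :
    (univ.filter fun j => J (σ j) = b₀).card = (univ.filter fun j => J j = b₀).card := by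
  refine Finset.card_bij (fun j _ => σ j) ?_ ?_ ?_
  · intro j hj
    rw [Finset.mem_filter] at hj ⊢
    exact ⟨Finset.mem_univ _, hj.2⟩
  · intro a _ b _ h
    exact σ.injective h
  · intro b hb
    rw [Finset.mem_filter] at hb
    refine ⟨σ.symm b, ?_, σ.apply_symm_apply b⟩
    rw [Finset.mem_filter, Equiv.apply_symm_apply]
    exact ⟨Finset.mem_univ _, hb.2⟩

theorem rho_par {b₀ : B} {f : (S → B) → M} (hf : f ∈ par K M S b₀) (σ : Equiv.Perm S) :
    rho (K := K) σ f ∈ par K M S b₀ := by
  intro J hJ
  refine hf _ ?_
  rw [card_perm]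
  exact hJ

/-- As many variables as the dimension. -/
theorem top_sum [CharZero K] {b₀ : B} (hcard : Fintype.card S = Fintype.card B)
    {w : (S → B) → M} (hw : w ∈ par K M S b₀) :
    ∑ σ : Equiv.Perm {x // x ∈ (univ : Finset S)}, ((Equiv.Perm.sign σ : ℤ) : K) •
      rho (K := K) (Equiv.Perm.ofSubtype σ) w = 0 := by
  funext J
  rw [Finset.sum_apply]
  simp only [Pi.smul_apply, Pi.zero_apply]
  by_cases hJ : Function.Injective J
  · refine Finset.sum_eq_zero fun σ _ => ?_
    have h1 : Function.Bijective J :=
      (Fintype.bijective_iff_injective_and_card J).2 ⟨hJ, hcard⟩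
    obtain ⟨j₀, hj₀⟩ := h1.2 b₀
    have h2 : (univ.filter fun j => J j = b₀) = {j₀} := by
      ext j
      rw [Finset.mem_filter, Finset.mem_singleton]
      constructor
      · rintro ⟨-, h⟩
        exact hJ (h.trans hj₀.symm)
      · rintro rfl
        exact ⟨Finset.mem_univ _, hj₀⟩
    rw [rho_par (K := K) hw (Equiv.Perm.ofSubtype σ) J (by rw [h2]; exact odd_one), smul_zero]
  · obtain ⟨x', y', hJxy, hxy'⟩ : ∃ x y, J x = J y ∧ x ≠ y := by
      unfold Function.Injective at hJ
      push Not at hJ
      exact hJ
    obtain ⟨x, hx, y, hy, hxy, hJxy⟩ : ∃ x, ∃ _ : x ∈ (univ : Finset S), ∃ y,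
        ∃ _ : y ∈ (univ : Finset S), x ≠ y ∧ J x = J y :=
      ⟨x', Finset.mem_univ _, y', Finset.mem_univ _, hxy', hJxy⟩
    refine Finset.sum_involution (fun σ _ => Equiv.swap ⟨x, hx⟩ ⟨y, hy⟩ * σ) ?_ ?_ ?_ ?_
    · intro σ _
      have hs : Equiv.Perm.sign (Equiv.swap (⟨x, hx⟩ : {x // x ∈ (univ : Finset S)}) ⟨y, hy⟩) = -1 :=
        Equiv.Perm.sign_swap (fun h => hxy (congrArg Subtype.val h))
      have h0 : rho (K := K) (Equiv.Perm.ofSubtype (Equiv.swap ⟨x, hx⟩ ⟨y, hy⟩ * σ)) w J =
          rho (K := K) (Equiv.Perm.ofSubtype σ) w J := by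
        rw [map_mul, rho_mul, Equiv.Perm.ofSubtype_swap_eq]
        show rho (K := K) (Equiv.Perm.ofSubtype σ) w (fun j => J (Equiv.swap x y j)) = _
        have hJ' : (fun j => J (Equiv.swap x y j)) = J := by
          funext j
          by_cases h1 : j = x
          · rw [h1, Equiv.swap_apply_left, hJxy]
          by_cases h2 : j = y
          · rw [h2, Equiv.swap_apply_right, hJxy]
          rw [Equiv.swap_apply_of_ne_of_ne h1 h2]
        rw [hJ']
      rw [h0, Equiv.Perm.sign_mul, hs]
      push_cast
      module
    · intro σ _ _ h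
      have h1 : Equiv.swap (⟨x, hx⟩ : {x // x ∈ (univ : Finset S)}) ⟨y, hy⟩ = 1 := by
        rwa [mul_eq_right] at h
      rw [Equiv.Perm.one_def, Equiv.swap_eq_refl_iff] at h1
      exact hxy (congrArg Subtype.val h1)
    · intro σ _
      exact Finset.mem_univ _
    · intro σ _
      rw [← mul_assoc, Equiv.swap_mul_self, one_mul]

variable {Q R : Matrix B B K}

theorem diag_inv (hd : ∀ a b, a ≠ b → Q a b = 0) (hQR : Q * R = 1) {a b : B} (hab : a ≠ b) :
    R a b = 0 := by
  have h1 := congrFun (congrFun hQR a) b
  have h2 := congrFun (congrFun hQR a) a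
  rw [Matrix.mul_apply, Finset.sum_eq_single a, Matrix.one_apply_ne hab] at h1
  · rw [Matrix.mul_apply, Finset.sum_eq_single a, Matrix.one_apply_eq] at h2
    · rcases mul_eq_zero.1 h1 with h | h
      · rw [h, zero_mul] at h2
        exact absurd h2 zero_ne_one
      · exact h
    · intro c _ hc
      rw [hd a c (Ne.symm hc), zero_mul]
    · intro h
      exact absurd (Finset.mem_univ _) h
  · intro c _ hc
    rw [hd a c (Ne.symm hc), zero_mul]
  · intro h
    exact absurd (Finset.mem_univ _) h

/-- Contractions of forms invariant under the reflection. -/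
theorem con_par (hd : ∀ a b, a ≠ b → Q a b = 0) (hQR : Q * R = 1) {b₀ : B} {f : (S → B) → M}
    (hf : f ∈ par K M S b₀) {a b : S} (hab : a ≠ b) (κ : B → ι) (i : ι) :
    con κ R i a b f ∈ par K M {x // x ≠ a ∧ x ≠ b} b₀ := by
  intro J hJ
  unfold con
  refine Finset.sum_eq_zero fun p _ => Finset.sum_eq_zero fun q _ => ?_
  by_cases hpq : p = q
  · subst hpq
    rw [hf _ ?_, smul_zero]
    have h1 : (univ.filter fun j => ext2 a b p p J j = b₀).card =
        (univ.filter fun j => J j = b₀).card + (if p = b₀ then 2 else 0) := by
      have h2 : ∀ (T : Type) [Fintype T] (P : T → Prop) [DecidablePred P],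
          ((univ.filter P).card : ℤ) = ∑ x, if P x then 1 else 0 := by
        intro T _ P _
        rw [Finset.card_filter]
        push_cast
        rfl
      have h3 : ((univ.filter fun j => ext2 a b p p J j = b₀).card : ℤ) =
          ((univ.filter fun j => J j = b₀).card : ℤ) + (if p = b₀ then 2 else 0) := by
        rw [h2, h2, sum_split hab, ext2_a, ext2_b hab]
        simp only [ext2_val]
        split_ifs <;> ring
      split_ifs with h4
      · rw [if_pos h4] at h3
        exact_mod_cast h3
      · rw [if_neg h4] at h3
        exact_mod_cast h3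
    rw [h1]
    split_ifs
    · exact hJ.add_even even_two
    · exact hJ
  · rw [diag_inv hd hQR hpq, zero_smul]

/-- **The first fundamental theorem for orthogonal groups**: no condition on the number of
variables. -/
theorem offt [CharZero K] (hQs : ∀ a b, Q a b = Q b a) (hd : ∀ a b, a ≠ b → Q a b = 0)
    (hQR : Q * R = 1) (b₀ : B) (N : ℕ) : ∀ (S : Type) [Fintype S] [DecidableEq S]
    (f : (S → B) → M), Fintype.card S = N →
    Inv (fun _ : B => ()) Q (fun _ => ((1 : ℤ) : K)) f → f ∈ par K M S b₀ →
    f ∈ Gen (fun _ : B => ()) Q (fun _ : S => ()) := by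
  classical
  have hs : ∀ _ : Unit, (1 : ℤ) = 1 ∨ (1 : ℤ) = -1 := fun _ => Or.inl rfl
  have hQb : ∀ a b : B, (() : Unit) ≠ () → Q a b = 0 := fun a b h => absurd rfl h
  have hQs' : ∀ a b, Q a b = ((1 : ℤ) : K) * Q b a := fun a b => by
    rw [Int.cast_one, one_mul, hQs]
  induction N using Nat.strong_induction_on with
  | _ N ih =>
    intro S _ _ f hN hinv hpar
    have hsup : Sup (fun _ : B => ()) (fun _ : S => ()) f := fun J hJ => absurd (fun _ => rfl) hJ
    rcases isEmpty_or_nonempty S with hS | ⟨⟨a0⟩⟩
    · refine Submodule.subset_span ⟨0, Equiv.equivOfIsEmpty _ _, f (fun j => (hS.false j).elim), ?_⟩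
      funext J
      unfold gen
      rw [if_pos (fun j => (hS.false j).elim), Finset.univ_eq_empty, Finset.prod_empty, one_smul]
      congr 1
      funext j
      exact (hS.false j).elim
    · refine alt_mem' (K := K) (κ := fun _ : B => ()) (c := fun _ : S => ()) (i := ())
        (Gen (fun _ : B => ()) Q (fun _ : S => ())) (par K M S b₀)
        (fun a b ha hb f hf => rho_Gen (c_swap ha hb) hf)
        (fun a b _ _ f hf => rho_par hf _) (blk (fun _ : B => ()) ()).card rfl
        (univ.filter ((fun _ : S => ()) · = ())) rfl 1 (Or.inr rfl) ?_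
        ((blk (fun _ : B => ()) ()).card + 1) {a0} ?_ ⟨a0, by simp⟩ ?_ f hpar hsup
        ?_ ?_
      · intro hc w hw _ halt
        have hu : (univ.filter ((fun _ : S => ()) · = ())) = (univ : Finset S) :=
          Finset.filter_true_of_mem fun _ _ => rfl
        have hb : (blk (fun _ : B => ()) ()).card = Fintype.card B := by
          rw [blk, Finset.filter_true_of_mem (fun _ _ => rfl), Finset.card_univ]
        rw [hu] at halt hc
        rw [hb, Finset.card_univ] at hc
        exact anti_mem (c := fun _ : S => ()) (i := ()) _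
          (fun a b ha hb f hf => rho_Gen (c_swap ha hb) hf) (fun _ _ => rfl) (top_sum hc hw) halt
      · intro x hx
        simp
      · rw [Finset.card_singleton]
        omega
      · intro a ha
        have hcon : ∀ b ∈ (univ.filter ((fun _ : S => ()) · = ())).erase a,
            con (fun _ : B => ()) R () a b f ∈
              Gen (fun _ : B => ()) Q (fun x : {x // x ≠ a ∧ x ≠ b} => ()) := by
          intro b hb
          rw [Finset.mem_erase] at hb
          have hab : a ≠ b := Ne.symm hb.1
          refine ih (Fintype.card {x // x ≠ a ∧ x ≠ b}) ?_ _ _ rfl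
            (inv_con (s := fun _ => 1) hs hQb hQs' hQR hinv hab) (con_par hd hQR hpar hab _ _)
          rw [← hN]
          exact Fintype.card_subtype_lt (x := a) (fun h => h.1 rfl)
        have hsum : ((1 : ℤ) : K) • ∑ b ∈ (univ.filter ((fun _ : S => ()) · = ())).erase a,
            (fun J : S → B => if ∀ j, (fun _ : B => ()) (J j) = (fun _ : S => ()) j then
              Q (J a) (J b) • con (fun _ : B => ()) R () a b f (fun x => J x.1) else 0) ∈
              Gen (fun _ : B => ()) Q (fun _ : S => ()) := by
          refine Submodule.smul_mem _ _ (Submodule.sum_mem _ fun b hb => ?_)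
          exact mul_Gen (fun _ : B => ()) Q (fun _ : S => ())
            (Ne.symm (Finset.mem_erase.1 hb).1) (hcon b hb)
        convert hsum using 1
        funext J
        rw [Pi.add_apply, Pi.smul_apply, Finset.sum_apply, Pi.smul_apply, Finset.sum_apply]
        simp only [implies_true, if_true]
        exact cas (s := fun _ => 1) hs hQb hQR hinv (fun _ => rfl) rfl
      · intro a ha b hb hab
        rw [Finset.mem_singleton] at ha hb
        exact absurd (ha.trans hb.symm) hab

end one

end Pool.Agent.U228.LF
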