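import Pool.Agent.TH125.Gal.Tower
import Pool.Agent.U228.LF.Offt

/-!
# Equivariant multilinear maps which are invariant under a reflection
-/

open CategoryTheory AlgebraicGeometry Finset Function

set_option linter.unusedSectionVars false

universe u v w x

namespace Pool.Agent.U228.LF

open Pool.Agent.TH125.Gal

section basis

variable {K : Type u} [Field K] [CharZero K] {T : Type v} [AddCommGroup T] [Module K T]

/-- An orthogonal basis which contains a given anisotropic vector. -/
theorem exists_orth [Module.Finite K T] {B : T →ₗ[K] T →ₗ[K] K} (hsy : ∀ x y, B x y = B y x)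
    {δ : T} (hδ : B δ δ ≠ 0) : ∃ (n : ℕ) (t : Module.Basis (Fin n) K T) (i₀ : Fin n),
      t i₀ = δ ∧ ∀ i j, i ≠ j → B (t i) (t j) = 0 := by
  classical
  have : Invertible (2 : K) := invertibleOfNonzero two_ne_zero
  have hδ0 : δ ≠ 0 := by
    rintro rfl
    exact hδ (by simp)
  have hc := LinearMap.BilinForm.isCompl_span_singleton_orthogonal (B := B) hδ
  set O := LinearMap.BilinForm.orthogonal B (Submodule.span K {δ}) with hO
  have hs : LinearMap.IsSymm (LinearMap.BilinForm.restrict B O) := ⟨fun x y => hsy x y⟩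
  obtain ⟨v, hv⟩ := LinearMap.BilinForm.exists_orthogonal_basis hs
  let b1 : Module.Basis Unit K (Submodule.span K {δ}) :=
    (Module.Basis.singleton Unit K).map (LinearEquiv.toSpanNonzeroSingleton K T δ hδ0)
  let b := (b1.prod v).map (Submodule.prodEquivOfIsCompl _ _ hc)
  have hb1 : b (Sum.inl ()) = δ := by
    simp [b, b1]
  have hb2 : ∀ j, b (Sum.inr j) = v j := by
    intro j
    simp [b, b1]
  have horth : ∀ i j, i ≠ j → B (b i) (b j) = 0 := by
    have h1 : ∀ j, B δ (v j) = 0 := by
      intro j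
      exact (v j).2 δ (Submodule.mem_span_singleton_self δ)
    intro i j hij
    rcases i with i | i <;> rcases j with j | j
    · exact absurd rfl hij
    · rw [hb1, hb2, h1]
    · rw [hb1, hb2, hsy, h1]
    · rw [hb2, hb2]
      exact hv fun h => hij (by rw [h])
  let f := Fintype.equivFin (Unit ⊕ Fin (Module.finrank K O))
  refine ⟨_, b.reindex f, f (Sum.inl ()), ?_, fun i j hij => ?_⟩
  · rw [Module.Basis.reindex_apply, Equiv.symm_apply_apply, hb1]
  · rw [Module.Basis.reindex_apply, Module.Basis.reindex_apply]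
    exact horth _ _ fun h => hij (f.symm.injective h)

variable {E : Type w} [AddCommGroup E] [Module K E] {S : Type} [Fintype S] [DecidableEq S]
  {G : Type x} [Group G] {B : T →ₗ[K] T →ₗ[K] K} {ρ : G →* (T →ₗ[K] T)} {σ : G →* (E →ₗ[K] E)}

/-- A pseudoreflection preserving a symmetric form is a reflection. -/
theorem refl_const (hsy : ∀ x y, B x y = B y x) (hnd : ∀ x, (∀ y, B x y = 0) → x = 0)
    {f : T → T} (hf : ∀ x y, B (f x) (f y) = B x y) {δ : T} {c : K} (hδ : δ ≠ 0) (hc : c ≠ 0)
    (hg : ∀ x, f x = x + (c * B δ x) • δ) : 2 + c * B δ δ = 0 := by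
  obtain ⟨x, hx⟩ : ∃ x, B δ x ≠ 0 := by
    by_contra hcon
    push Not at hcon
    exact hδ (hnd δ hcon)
  have h1 := hf x x
  rw [hg] at h1
  simp only [map_add, map_smul, LinearMap.add_apply, LinearMap.smul_apply, smul_eq_mul] at h1
  rw [hsy x δ] at h1
  have h2 : (c * B δ x * B δ x) * (2 + c * B δ δ) = 0 := by linear_combination h1
  exact (mul_eq_zero.1 h2).resolve_left (mul_ne_zero (mul_ne_zero hc hx) hx)

open Pool.Agent.TH125.Nod in
/-- **Equivariant multilinear maps which are invariant under the reflection.** -/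
theorem gen_even [Module.Finite K T]
    (hsy : ∀ x y, B x y = B y x) (hnd : ∀ x, (∀ y, B x y = 0) → x = 0) {μ : G → K}
    (hμ : ∀ g, μ g ≠ 0) (hB : ∀ g x y, B (ρ g x) (ρ g y) = μ g * B x y) (hSI : SI ρ) {g : G}
    {δ : T} {c : K} (hδ : δ ≠ 0) (hc : c ≠ 0) (hg : ∀ x, ρ g x = x + (c * B δ x) • δ)
    (hμg : μ g = 1) (hσ : σ g = 1) (hK : FewRoots K)
    {h : MultilinearMap K (fun _ : S => T) E} (hh : Eqv ρ σ h)
    (hgh : ∀ v, h (fun j => ρ g (v j)) = h v) {n : ℕ} (t : Module.Basis (Fin n) K T) (i₀ : Fin n)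
    (ht : t i₀ = δ) (horth : ∀ i j, i ≠ j → B (t i) (t j) = 0) :
    (fun r : S → Fin n => h fun j => t (r j)) ∈ Gen (fun _ : Fin n => ())
      (Matrix.of fun i j => B (t i) (t j)) (fun _ : S => ()) := by
  -- the inverse of the Gram matrix
  have hBnd : LinearMap.BilinForm.Nondegenerate (LinearMap.flip B) := by
    refine ⟨fun x hx => hnd x fun y => ?_, fun x hx => hnd x fun y => hx y⟩
    rw [hsy, show B y x = 0 from hx y]
  obtain ⟨R, hR⟩ : ∃ R : Matrix (Fin n) (Fin n) K,
      (Matrix.of fun i j => B (t i) (t j)) * R = 1 := by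
    refine ⟨Matrix.of fun j k =>
      t.repr (LinearMap.BilinForm.dualBasis (LinearMap.flip B) hBnd t k) j, ?_⟩
    ext i k
    rw [Matrix.mul_apply, Matrix.one_apply]
    simp only [Matrix.of_apply]
    have h1 := LinearMap.BilinForm.apply_dualBasis_left (B := LinearMap.flip B) hBnd t k i
    rw [LinearMap.flip_apply] at h1
    rw [← h1]
    conv_rhs => rw [← t.sum_repr (LinearMap.BilinForm.dualBasis (LinearMap.flip B) hBnd t k)]
    rw [map_sum]
    refine Finset.sum_congr rfl fun j _ => ?_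
    rw [map_smul, smul_eq_mul, mul_comm]
  have h2 : 2 + c * B δ δ = 0 :=
    refl_const hsy hnd (f := ρ g) (fun x y => by rw [hB, hμg, one_mul]) hδ hc hg
  refine offt (fun a b => hsy _ _) (fun a b hab => horth a b hab) hR i₀ (Fintype.card S) S _ rfl
    ?_ ?_
  · intro u v _ r
    rcases Nat.lt_or_ge (Module.finrank K T) 2 with hr | hr
    · have hn : n = Module.finrank K T := by
        rw [Module.finrank_eq_card_basis t, Fintype.card_fin]
      have huv : u = v := by
        apply Fin.ext
        have := u.2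
        have := v.2
        omega
      subst huv
      refine Finset.sum_eq_zero fun j _ => ?_
      rw [Int.cast_one, one_mul, sub_self]
    · have h1 := (all_mem (S := S) (σ := σ) (s := 1) (Or.inl rfl)
        (fun x y => by rw [Int.cast_one, one_mul, hsy]) hnd hμ hB hSI hδ hc hg hμg hσ
        (fun _ => ⟨hK, hr⟩) (t u) (t v)).2 h hh (fun j => t (r j))
      rw [← h1]
      refine Finset.sum_congr rfl fun j _ => ?_
      have e1 : (rk B (t v) (t u) - ((1 : ℤ) : K) • rk B (t u) (t v)) (t (r j)) =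
          B (t v) (t (r j)) • t u - (((1 : ℤ) : K) * B (t u) (t (r j))) • t v := by
        rw [LinearMap.sub_apply, LinearMap.smul_apply, rk_apply, rk_apply, smul_smul]
      rw [e1, MultilinearMap.map_update_sub, MultilinearMap.map_update_smul,
        MultilinearMap.map_update_smul]
      have e2 : ∀ a, (fun i => t (update r j a i)) = update (fun i => t (r i)) j (t a) := by
        intro a
        funext i
        by_cases hi : i = j
        · subst hi
          rw [update_self, update_self]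
        · rw [update_of_ne hi, update_of_ne hi]
      change B (t v) (t (r j)) • h (fun i => t (update r j u i)) -
        (((1 : ℤ) : K) * B (t u) (t (r j))) • h (fun i => t (update r j v i)) = _
      rw [e2, e2]
  · intro J hJ
    have h3 : ∀ j, ρ g (t (J j)) = (if J j = i₀ then (-1 : K) else 1) • t (J j) := by
      intro j
      by_cases hj : J j = i₀
      · rw [if_pos hj, hj, ht, hg]
        have h4 : c * B δ δ = -2 := by linear_combination h2
        rw [h4]
        module
      · rw [if_neg hj, one_smul, hg, ← ht, horth i₀ (J j) (Ne.symm hj), mul_zero, zero_smul,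
          add_zero]
    have h4 := hgh fun j => t (J j)
    have h5 : (fun j => ρ g (t (J j))) = fun j => (if J j = i₀ then (-1 : K) else 1) • t (J j) :=
      funext h3
    rw [h5, MultilinearMap.map_smul_univ] at h4
    have h6 : ∏ j, (if J j = i₀ then (-1 : K) else 1) = -1 := by
      rw [Finset.prod_ite, Finset.prod_const, Finset.prod_const_one, mul_one]
      exact hJ.neg_one_pow
    rw [h6, neg_one_smul] at h4
    have h7 : (2 : K) • h (fun j => t (J j)) = 0 := by
      rw [two_smul]
      nth_rewrite 1 [← h4]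
      exact neg_add_cancel _
    exact (smul_eq_zero.1 h7).resolve_left two_ne_zero

end basis

open Pool.Agent.H914 Pool.Agent.H914.VarClass Pool.Agent.H914.VarClass.Obj
  Pool.Agent.H914.WeilCohomology Pool.Agent.H281R3.HT Pool.Agent.W552

variable {k : Type u} [Field k] {𝒱 : VarClass k} {ops : CycleOps 𝒱}
  {W : WeilCohomology.{u, v} ops}

/-- An adapted basis with an orthogonal transcendental part which contains a given vector. -/
theorem exists_SB_orth {X : 𝒱.Obj} (hDX : HomEqNum W X)
    (hmid : transcendental W X ≤ W.gr X X.dim) (hev : Even X.dim) {δ : W.H X}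
    (hδ : δ ∈ transcendental W X) (hδ0 : bil W X δ δ ≠ 0) :
    ∃ (s : SB W X) (i₀ : Fin s.NT), (s.uT i₀ : W.H X) = δ ∧
      ∀ i j, i ≠ j → bil W X (s.uT i) (s.uT j) = 0 := by
  obtain ⟨s⟩ := exists_SB hDX
  have hsy : ∀ a b : transcendental W X, rform W X (transcendental W X) a b =
      rform W X (transcendental W X) b a := by
    intro a b
    rw [rform_apply, rform_apply, trans_symm hmid a.2 b.2, hev.neg_one_pow, one_mul]
  have hnd : LinearMap.BilinForm.Nondegenerate (rform W X (transcendental W X)) := by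
    refine ⟨fun a h => trans_nondeg hDX a h, fun a h => trans_nondeg hDX a fun b => ?_⟩
    rw [hsy]
    exact h b
  obtain ⟨n, t, i₀, ht, horth⟩ := exists_orth hsy (δ := ⟨δ, hδ⟩) hδ0
  let bT := LinearMap.BilinForm.dualBasis _ hnd t
  refine ⟨{
    NC := s.NC
    NT := n
    bC := s.bC
    jC := s.jC
    alg := s.alg
    bT := bT
    e := (s.bC.prod bT).map (Submodule.prodEquivOfIsCompl _ _ (isCompl hDX))
    e_inl := fun i => by
      rw [Module.Basis.map_apply, Module.Basis.prod_apply]
      simp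
    e_inr := fun i => by
      rw [Module.Basis.map_apply, Module.Basis.prod_apply]
      simp
    uC := s.uC
    uT := t
    uC_bC := s.uC_bC
    uT_bT := fun i j => by
      have h1 := LinearMap.BilinForm.apply_dualBasis_left hnd t j i
      change rform W X (transcendental W X) (t i) (bT j) = _
      rw [hsy]
      refine h1.trans ?_
      by_cases hij : i = j
      · rw [if_pos hij, if_pos hij.symm]
      · rw [if_neg hij, if_neg (Ne.symm hij)] }, i₀, ?_, fun i j hij => horth i j hij⟩
  change ((t i₀ : transcendental W X) : W.H X) = δ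
  rw [ht]

section

variable {P : Polarized 𝒱} {n : ℕ} {Z : 𝒱.Obj} {s : SB W P.X}
  {b : Module.Basis (Fin (n + 1) → Fin s.NC ⊕ Fin s.NT) W.K (W.H (nest ops n fun _ => P).X)}
  (hb : ∀ r, b r = mono (prj ops n fun _ => P) fun p => s.e (r p))
  {Γ : Type w} [Group Γ] {χ : Γ →* W.Kˣ} {ρ : Γ →* (W.H P.X ≃ₐ[W.K] W.H P.X)}
  {τ : Γ →* (W.H Z ≃ₐ[W.K] W.H Z)}
  {υ : Γ →* (W.H ((nest ops n fun _ => P).X.prod Z) ≃ₐ[W.K]
    W.H ((nest ops n fun _ => P).X.prod Z))}

include hb in
/-- **Equivariance** under one element. -/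
theorem hS_one (hG : IsGalois W χ P.X ρ) (hP : IsPowAct W P n Z ρ τ υ)
    {c : W.H ((nest ops n fun _ => P).X.prod Z)} {j : ℕ} {g : Γ}
    (hfix : ∀ i, ρ g (s.bC i) = (χ g : W.K) ^ s.jC i • (s.bC i : W.H P.X))
    (hc : υ g c = (χ g : W.K) ^ j • c) (c₀ : Fin (n + 1) → Option (Fin s.NC))
    (v : Free c₀ → transcendental W P.X) :
    hS s b c c₀ (fun a => rhoT hG g (v a)) = twist (lamb χ s c₀ j) τ g (hS s b c c₀ v) := by
  have hχ : (χ g : W.K) ≠ 0 := Units.ne_zero _
  set V : Fin (n + 1) → W.H P.X := fun p =>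
    if h : c₀ p = none then (v ⟨p, h⟩ : W.H P.X) else fixv s c₀ ⟨p, h⟩ with hV
  have h1 : (fun p => if h : c₀ p = none then ((rhoT hG g (v ⟨p, h⟩) : transcendental W P.X) :
      W.H P.X) else fixv s c₀ ⟨p, h⟩) = fun p => ((χ g : W.K) ^ fixw s c₀ p)⁻¹ • ρ g (V p) := by
    funext p
    by_cases h : c₀ p = none
    · rw [dif_pos h, hV]
      beta_reduce
      rw [dif_pos h, fixw, h, rhoT_apply]
      simp
    · obtain ⟨i, hi⟩ := Option.ne_none_iff_exists'.1 h
      rw [dif_neg h, hV]
      beta_reduce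
      rw [dif_neg h, fixv_some hi, uC_act hG s hfix, fixw, hi, smul_smul]
      change _ = (((χ g : W.K) ^ (P.X.dim - s.jC i))⁻¹ * (χ g : W.K) ^ (P.X.dim - s.jC i)) •
        (s.uC i : W.H P.X)
      rw [inv_mul_cancel₀ (pow_ne_zero _ hχ), one_smul]
  rw [hS_apply, h1, MultilinearMap.map_smul_univ]
  have h2 : c = ((χ g : W.K) ^ j)⁻¹ • υ g c := by
    rw [hc, smul_smul, inv_mul_cancel₀ (pow_ne_zero _ hχ), one_smul]
  have h3 : hml s.e b c (fun p => ρ g (V p)) =
      (((χ g : W.K) ^ j)⁻¹ * ((χ g : W.K) ^ P.X.dim) ^ (n + 1)) • τ g (hml s.e b c V) := by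
    conv_lhs => rw [h2]
    rw [hml_smul hb, hml_equiv hb (bil_act hG g) (hP g).1 (hP g).2, smul_smul]
  rw [h3, twist_apply, lamb_apply, hS_apply, smul_smul]
  congr 1
  push_cast
  ring

include hb in
/-- the coordinates at the free positions are invariant -/
theorem gen_free' (hDX : HomEqNum W P.X) (hmid : transcendental W P.X ≤ W.gr P.X P.X.dim)
    (hG : IsGalois W χ P.X ρ) (hP : IsPowAct W P n Z ρ τ υ)
    (hirr : StronglyIrreducible ρ (transcendental W P.X)) {g : Γ} (hχ : χ g = 1) (hτ : τ g = 1)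
    (hev : Even P.X.dim) (hK : FewRoots W.K) {i₀ : Fin s.NT} {x : W.K} (hx : x ≠ 0)
    (hgx : ∀ t ∈ transcendental W P.X,
      ρ g t = t + (x * W.tr P.X (s.uT i₀ * t)) • (s.uT i₀ : W.H P.X))
    (horth : ∀ i j, i ≠ j → bil W P.X (s.uT i) (s.uT j) = 0)
    (hfix : ∀ i, ρ g (s.bC i) = (χ g : W.K) ^ s.jC i • (s.bC i : W.H P.X))
    {c : W.H ((nest ops n fun _ => P).X.prod Z)} {j : ℕ} {Δ : Subgroup Γ} (hΔ : Δ.FiniteIndex)
    (hc : ∀ g ∈ Δ, υ g c = (χ g : W.K) ^ j • c) (hcg : υ g c = (χ g : W.K) ^ j • c)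
    (c₀ : Fin (n + 1) → Option (Fin s.NC)) :
    (fun r : Free c₀ → Fin s.NT => hml s.e b c fun p => s.es (comb c₀ r p)) ∈
      Pool.Agent.TH125.Nod.Gen (fun _ : Fin s.NT => ())
        (Matrix.of fun i j => bil W P.X (s.uT i) (s.uT j)) (fun _ : Free c₀ => ()) := by
  have htw : twist (lamb χ s c₀ j) τ g = 1 := by
    apply LinearMap.ext
    intro z
    rw [twist_apply, lamb_apply, hχ, hτ]
    simp
  have h1 := gen_even (S := Free c₀)
    (μ := fun g => (χ g : W.K) ^ P.X.dim) (B := rform W P.X (transcendental W P.X))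
    (fun a b => by
      rw [rform_apply, rform_apply, trans_symm hmid a.2 b.2, hev.neg_one_pow, one_mul])
    (trans_nondeg hDX) (fun g => pow_ne_zero _ (Units.ne_zero _))
    (fun g a b => bil_act hG g a b) (SI_rhoT hG hirr) (g := g) (δ := s.uT i₀) (c := x)
    (s.uT.ne_zero i₀) hx
    (fun t => Subtype.ext (hgx t t.2))
    (by rw [hχ, Units.val_one, one_pow])
    (σ := twist (lamb χ s c₀ j) τ) htw hK
    (hS_eqv hb hG hP hΔ hc c₀)
    (fun v => by
      rw [hS_one hb hG hP hfix hcg c₀ v, htw]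
      rfl)
    s.uT i₀ rfl (fun i j hij => horth i j hij)
  have h2 : (fun r : Free c₀ → Fin s.NT => hS s b c c₀ fun j => s.uT (r j)) =
      fun r : Free c₀ → Fin s.NT => hml s.e b c fun p => s.es (comb c₀ r p) := by
    funext r
    exact hS_comb c c₀ r
  rw [← h2]
  exact h1

include hb in
/-- **The structure of the invariant classes on products with powers**, for even dimensions and all
powers. -/
theorem mem_Tgt' (hDX : HomEqNum W P.X) (hmid : transcendental W P.X ≤ W.gr P.X P.X.dim)
    (hG : IsGalois W χ P.X ρ) (hP : IsPowAct W P n Z ρ τ υ)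
    (hirr : StronglyIrreducible ρ (transcendental W P.X)) {g : Γ} (hχ : χ g = 1) (hτ : τ g = 1)
    (hev : Even P.X.dim) (hK : FewRoots W.K) {i₀ : Fin s.NT} {x : W.K} (hx : x ≠ 0)
    (hgx : ∀ t ∈ transcendental W P.X,
      ρ g t = t + (x * W.tr P.X (s.uT i₀ * t)) • (s.uT i₀ : W.H P.X))
    (horth : ∀ i j, i ≠ j → bil W P.X (s.uT i) (s.uT j) = 0)
    (hfix : ∀ i, ρ g (s.bC i) = (χ g : W.K) ^ s.jC i • (s.bC i : W.H P.X))
    {c : W.H ((nest ops n fun _ => P).X.prod Z)} {j : ℕ} {Δ : Subgroup Γ} (hΔ : Δ.FiniteIndex)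
    (hc : ∀ g ∈ Δ, υ g c = (χ g : W.K) ^ j • c) (hcg : υ g c = (χ g : W.K) ^ j • c) :
    c ∈ Tgt s n Z := by
  rw [expand b c, sum_patterns]
  refine Submodule.sum_mem _ fun c₀ _ => ?_
  have h1 := gen_free' hb hDX hmid hG hP hirr hχ hτ hev hK hx hgx horth hfix hΔ hc hcg c₀
  have h2 : ∀ F ∈ Pool.Agent.TH125.Nod.Gen (fun _ : Fin s.NT => ())
      (Matrix.of fun i j => bil W P.X (s.uT i) (s.uT j)) (fun _ : Free c₀ => ()),
      ∑ r : Free c₀ → Fin s.NT, W.map (fst _ Z) (b (comb c₀ r)) * W.map (snd _ Z) (F r : W.H Z) ∈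
        Tgt s n Z := by
    intro F hF
    induction hF using Submodule.span_induction with
    | mem F hF =>
      obtain ⟨m, e, w, rfl⟩ := hF
      obtain ⟨ε, S, i, x, hx, h3⟩ := mq_sum (s := s) (π := prj ops n fun _ => P) hmid e
      have h4 : ∑ r : Free c₀ → Fin s.NT, W.map (fst _ Z) (b (comb c₀ r)) *
          W.map (snd _ Z) (Pool.Agent.TH125.Nod.gen (fun _ : Fin s.NT => ())
            (Matrix.of fun i j => bil W P.X (s.uT i) (s.uT j)) (fun _ : Free c₀ => ()) e w r) =
          (ε : W.K) • (W.map (fst _ Z) x * W.map (snd _ Z) w) := by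
        rw [← smul_mul_assoc, ← map_smul, ← h3, map_sum, Finset.sum_mul]
        refine Finset.sum_congr rfl fun r _ => ?_
        rw [Pool.Agent.TH125.Nod.gen, if_pos (fun _ => rfl), map_smul, map_smul, mul_smul_comm,
          smul_mul_assoc, hb]
        rfl
      rw [h4]
      exact Submodule.smul_mem _ _ (Submodule.subset_span ⟨S, i, x, w, hx, rfl⟩)
    | zero =>
      simp only [Pi.zero_apply, map_zero, mul_zero, Finset.sum_const_zero]
      exact Submodule.zero_mem _
    | add F F' _ _ hF hF' =>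
      simp only [Pi.add_apply, map_add, mul_add, Finset.sum_add_distrib]
      exact Submodule.add_mem _ hF hF'
    | smul x F _ hF =>
      simp only [Pi.smul_apply, map_smul, mul_smul_comm]
      rw [← Finset.smul_sum]
      exact Submodule.smul_mem _ _ hF
  have h3 := h2 _ h1
  simp only [coord_eq hb]
  exact h3

end

end Pool.Agent.U228.LF
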